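import Pool.Agent.Helper41.Circ.Defs

/-!
# Locally strongly transitive automata

`W 0, …, W (r-1)` are words such that, for every state `x`, the states `act (W i) x` run exactly once
through the set `C` (an independent system of words).
-/

open Finset

namespace Helper41.Circ

variable {n : ℕ}

/-- `W` is an independent system of words with range `C` -/
def Indep {r : ℕ} (W : Fin r → List (Fin n → Fin n)) (C : Finset (Fin n)) : Prop :=
  ∀ x : Fin n, Function.Injective (fun i => act (W i) x) ∧ univ.image (fun i => act (W i) x) = C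

/-- the centred indicator function relative to `r` -/
def sr (r : ℕ) (S : Finset (Fin n)) (x : Fin n) : ℚ := (if x ∈ S then (r : ℚ) else 0) - S.card

/-- the functional -/
def fr (r : ℕ) (C S : Finset (Fin n)) (w u : List (Fin n → Fin n)) : ℚ :=
  ∑ x ∈ C, sr r S (act u (act w x))

theorem fr_eq (r : ℕ) (C S : Finset (Fin n)) (hC : C.card = r) (w u : List (Fin n → Fin n)) :
    fr r C S w u = r * (((C.filter fun x => act (w ++ u) x ∈ S).card : ℚ) - S.card) := by
  unfold fr sr
  rw [sum_sub_distrib, sum_const, hC, nsmul_eq_mul]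
  have : ∑ x ∈ C, (if act u (act w x) ∈ S then (r : ℚ) else 0) =
      r * (C.filter fun x => act (w ++ u) x ∈ S).card := by
    rw [← sum_filter, sum_const, nsmul_eq_mul, mul_comm]
    simp only [act_append]
  rw [this]
  ring

section
variable {Ω : Finset (Fin n → Fin n)} {r : ℕ} {W : Fin r → List (Fin n → Fin n)}
  {C : Finset (Fin n)} (hI : Indep W C)

include hI in
theorem Indep.card [NeZero n] : C.card = r := by
  have h := hI 0
  rw [← h.2, card_image_of_injective _ h.1, card_univ, Fintype.card_fin]

include hI in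
theorem Indep.sum (x : Fin n) (g : Fin n → ℚ) : ∑ i, g (act (W i) x) = ∑ y ∈ C, g y := by
  have h := hI x
  rw [← h.2, sum_image]
  intro i _ j _ hij
  exact h.1 hij

include hI in
theorem Indep.cardT (T S : Finset (Fin n)) (hS : S ⊆ C) :
    ∑ i, (T.filter fun x => act (W i) x ∈ S).card = T.card * S.card := by
  simp_rw [card_filter]
  rw [sum_comm, ← smul_eq_mul, ← sum_const]
  refine sum_congr rfl fun x _ => ?_
  have h := hI x
  have h1 : ∑ i, (if act (W i) x ∈ S then 1 else 0) = ∑ y ∈ C, if y ∈ S then 1 else 0 := by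
    rw [← h.2, sum_image]
    intro i _ j _ hij
    exact h.1 hij
  rw [h1, ← card_filter]
  congr 1
  ext y
  rw [mem_filter]
  exact ⟨fun h => h.2, fun h => ⟨hS h, h⟩⟩

/-- a shortest word with a non-zero value is short -/
theorem short_word2 {S : Finset (Fin n)} {N : ℕ}
    (hN : ∀ w i, Over Ω w → w.length < N → fr r C S w (W i) = 0) {w : List (Fin n → Fin n)} {i0 : Fin r}
    (hw : Over Ω w) (hwN : w.length = N) (hsg : fr r C S w (W i0) ≠ 0) : N + 1 ≤ n := by
  classical
  let K : Matrix (Fin (N + 1)) (Fin n) ℚ := fun i y =>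
    ((C.filter fun x => act (w.take i) x = y).card : ℚ)
  let V : Matrix (Fin n) (Fin (N + 1)) ℚ := fun y k => sr r S (act (W i0) (act (w.drop k) y))
  have hKV : ∀ i k : Fin (N + 1), (K * V) i k = fr r C S (w.take i ++ w.drop k) (W i0) := by
    intro i k
    rw [Matrix.mul_apply]
    unfold fr
    simp only [K, V, act_append]
    have h1 : ∀ y : Fin n, ((C.filter fun x => act (w.take i) x = y).card : ℚ) *
        sr r S (act (W i0) (act (w.drop k) y)) =
        ∑ x ∈ C, if act (w.take i) x = y then
          sr r S (act (W i0) (act (w.drop k) (act (w.take i) x))) else 0 := by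
      intro y
      rw [← sum_filter, card_eq_sum_ones, Nat.cast_sum, sum_mul]
      refine sum_congr rfl fun x hx => ?_
      rw [(mem_filter.1 hx).2]
      simp
    rw [sum_congr rfl fun y _ => h1 y, sum_comm]
    refine sum_congr rfl fun x _ => ?_
    rw [sum_ite_eq]
    simp
  have hov : ∀ i k : ℕ, Over Ω (w.take i ++ w.drop k) := by
    intro i k f hf
    rcases List.mem_append.1 hf with h | h
    · exact hw f (List.mem_of_mem_take h)
    · exact hw f (List.mem_of_mem_drop h)
  have htri : ∀ i k : Fin (N + 1), i < k → (K * V) i k = 0 := by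
    intro i k hik
    have hik' : (i : ℕ) < k := hik
    have hk : (k : ℕ) ≤ N := by have := k.2; omega
    rw [hKV]
    refine hN _ _ (hov _ _) ?_
    rw [List.length_append, List.length_take, List.length_drop, hwN]
    omega
  have hdiag : ∀ i : Fin (N + 1), (K * V) i i ≠ 0 := by
    intro i
    rw [hKV, List.take_append_drop]
    exact hsg
  have hdet : (K * V).det ≠ 0 := by
    rw [Matrix.det_of_isLowerTriangular (K * V) (fun i j hij => htri i j hij)]
    exact prod_ne_zero_iff.2 fun i _ => hdiag i
  have hrank : (K * V).rank = N + 1 := by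
    rw [Matrix.rank_of_isUnit _ ((Matrix.isUnit_iff_isUnit_det _).2 (isUnit_iff_ne_zero.2 hdet)),
      Fintype.card_fin]
  have h1 : (K * V).rank ≤ K.rank := Matrix.rank_mul_le_left K V
  have h2 : K.rank ≤ n := by
    have := Matrix.rank_le_width K
    simpa using this
  omega

variable {L : ℕ} (hW : ∀ i, Over Ω (W i) ∧ (W i).length ≤ L)

include hI hW in
/-- the extension lemma -/
theorem extend2 {t : List (Fin n → Fin n)} (ht : Over Ω t) {q : Fin n} (htq : ∀ x, act t x = q)
    {S : Finset (Fin n)} (hSC : S ⊆ C) (hS0 : 0 < S.card) (hSr : S.card < r) :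
    ∃ u, Over Ω u ∧ u.length ≤ n - 1 + L ∧ S.card < (C.filter fun x => act u x ∈ S).card := by
  classical
  have hn : NeZero n := ⟨by rintro rfl; exact q.elim0⟩
  have hC : C.card = r := hI.card
  have hr : (0 : ℚ) < r := by exact_mod_cast (by omega : 0 < r)
  have hsum : ∀ w, ∑ i, fr r C S w (W i) = 0 := by
    intro w
    unfold fr
    rw [sum_comm]
    refine sum_eq_zero fun x _ => ?_
    rw [hI.sum (act w x) (fun y => sr r S y)]
    unfold sr
    rw [sum_sub_distrib, sum_const, hC, ← sum_filter, sum_const]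
    have : (C.filter fun y => y ∈ S) = S := by
      ext y; rw [mem_filter]; exact ⟨fun h => h.2, fun h => ⟨hSC h, h⟩⟩
    rw [this, nsmul_eq_mul, nsmul_eq_mul]
    ring
  have hex : ∃ N, ∃ w i, Over Ω w ∧ w.length = N ∧ fr r C S w (W i) ≠ 0 := by
    obtain ⟨y, hy⟩ := card_pos.1 hS0
    have h1 := (hI q).2
    have h2 : y ∈ univ.image (fun i => act (W i) q) := by rw [h1]; exact hSC hy
    obtain ⟨i, _, hi⟩ := mem_image.1 h2
    refine ⟨_, t, i, ht, rfl, ?_⟩
    unfold fr
    simp only [htq, hi]
    rw [sum_const, hC, nsmul_eq_mul]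
    refine mul_ne_zero hr.ne' ?_
    unfold sr
    rw [if_pos hy]
    have : (S.card : ℚ) < r := by exact_mod_cast hSr
    linarith
  set N := Nat.find hex with hNdef
  have hspec := Nat.find_spec hex
  rw [← hNdef] at hspec
  have hN : ∀ w i, Over Ω w → w.length < N → fr r C S w (W i) = 0 := by
    intro w i hw hlt
    by_contra hne
    exact Nat.find_min hex hlt ⟨w, i, hw, rfl, hne⟩
  obtain ⟨w, i, h1, h2, h3⟩ := hspec
  have h4 := short_word2 hN h1 h2 h3
  obtain ⟨i', _, hi'⟩ := exists_pos_of_sum_zero_of_exists_nonzero _ (hsum w) ⟨i, mem_univ i, h3⟩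
  refine ⟨w ++ W i', h1.append (hW i').1, ?_, ?_⟩
  · rw [List.length_append, h2]
    have := (hW i').2
    omega
  · rw [fr_eq r C S hC] at hi'
    have h8 : (0 : ℚ) < ((C.filter fun x => act (w ++ W i') x ∈ S).card : ℚ) - S.card := by
      by_contra hcon
      push Not at hcon
      exact absurd hi' (not_lt.2 (mul_nonpos_of_nonneg_of_nonpos hr.le hcon))
    have h9 : (S.card : ℚ) < (C.filter fun x => act (w ++ W i') x ∈ S).card := by linarith
    exact_mod_cast h9

include hI hW in
theorem fibres2 {t : List (Fin n → Fin n)} (ht : Over Ω t) {q : Fin n} (htq : ∀ x, act t x = q)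
    (m : ℕ) (hm1 : 1 ≤ m) (hmr : m ≤ r) :
    ∃ v, Over Ω v ∧ v.length ≤ (m - 1) * (n - 1 + L) ∧ ∃ p, m ≤ (C.filter fun x => act v x = p).card := by
  classical
  have hn : NeZero n := ⟨by rintro rfl; exact q.elim0⟩
  have hC : C.card = r := hI.card
  induction m, hm1 using Nat.le_induction with
  | base =>
    obtain ⟨p, hp⟩ := card_pos.1 (by omega : 0 < C.card)
    refine ⟨[], fun f hf => by simp at hf, by simp, p, ?_⟩
    exact card_pos.2 ⟨p, mem_filter.2 ⟨hp, rfl⟩⟩
  | succ m hm ih =>
    obtain ⟨v, hv, hlen, p, hp⟩ := ih (by omega)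
    have hlen2 : (m - 1) * (n - 1 + L) + (n - 1 + L) = (m + 1 - 1) * (n - 1 + L) := by
      obtain ⟨e, he⟩ : ∃ e, m = e + 1 := ⟨m - 1, by omega⟩
      rw [he, Nat.add_sub_cancel, Nat.add_sub_cancel]
      ring
    rcases Nat.lt_or_ge m (C.filter fun x => act v x = p).card with h | h
    · exact ⟨v, hv, by omega, p, h⟩
    · obtain ⟨u, hu, hulen, hu2⟩ := extend2 hI hW ht htq (S := C.filter fun x => act v x = p)
        (filter_subset _ _) (by omega) (by omega)
      refine ⟨u ++ v, hu.append hv, ?_, p, ?_⟩
      · rw [List.length_append]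
        omega
      · refine lt_of_lt_of_le (lt_of_le_of_lt hp hu2) (card_le_card ?_)
        intro x hx
        rw [mem_filter] at hx ⊢
        rw [act_append]
        exact ⟨hx.1, (mem_filter.1 hx.2).2⟩

include hI hW in
theorem main2 (hr : 0 < r) {t : List (Fin n → Fin n)} (ht : Over Ω t) {q : Fin n}
    (htq : ∀ x, act t x = q) (T : Finset (Fin n)) (j : ℕ) (hj : j < T.card) :
    ∃ w, Over Ω w ∧ w.length ≤ (j * r / T.card) * (n - 1 + L) + L ∧
      ∃ p, j + 1 ≤ (T.filter fun x => act w x = p).card := by
  classical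
  have hn : NeZero n := ⟨by rintro rfl; exact q.elim0⟩
  have hC : C.card = r := hI.card
  have hT0 : 0 < T.card := by omega
  set d := j * r / T.card with hd
  have hdr : d < r := by
    rw [hd, Nat.div_lt_iff_lt_mul hT0, mul_comm r]
    exact Nat.mul_lt_mul_of_pos_right hj hr
  obtain ⟨v, hv, hlen, p, hp⟩ := fibres2 hI hW ht htq (d + 1) (Nat.succ_le_succ (Nat.zero_le _)) hdr
  have h1 : j * r < T.card * (C.filter fun x => act v x = p).card := by
    calc j * r < T.card * (d + 1) := by
          rw [hd, mul_comm T.card]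
          exact Nat.lt_mul_of_div_lt (Nat.lt_succ_self _) hT0
      _ ≤ _ := Nat.mul_le_mul_left _ hp
  have h2 := hI.cardT T (C.filter fun x => act v x = p) (filter_subset _ _)
  have h3 : ∃ i, j + 1 ≤ (T.filter fun x => act (W i) x ∈ C.filter fun x => act v x = p).card := by
    by_contra hcon
    push Not at hcon
    have h4 : ∑ i, (T.filter fun x => act (W i) x ∈ C.filter fun x => act v x = p).card ≤
        ∑ i : Fin r, j := sum_le_sum fun i _ => by have := hcon i; omega
    rw [h2, sum_const, card_univ, Fintype.card_fin, smul_eq_mul, mul_comm r j] at h4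
    omega
  obtain ⟨i, hi⟩ := h3
  refine ⟨W i ++ v, (hW i).1.append hv, ?_, p, hi.trans (card_le_card ?_)⟩
  · rw [List.length_append]
    have := (hW i).2
    rw [Nat.add_sub_cancel] at hlen
    omega
  · intro x hx
    rw [mem_filter] at hx ⊢
    rw [act_append]
    exact ⟨hx.1, (mem_filter.1 hx.2).2⟩

end

end Helper41.Circ
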