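import Mathlib

/-!
# Circular automata: words

A word is a list of functions `Fin n → Fin n`; its first letter acts first.
-/

open Finset

namespace Helper41.Circ

/-- the action of a word; the first letter acts first -/
def act {n : ℕ} (w : List (Fin n → Fin n)) (x : Fin n) : Fin n :=
  w.foldl (fun y f => f y) x

section
variable {n : ℕ}

@[simp] theorem act_nil (x : Fin n) : act [] x = x := rfl

@[simp] theorem act_cons (a : Fin n → Fin n) (w : List (Fin n → Fin n)) (x : Fin n) :
    act (a :: w) x = act w (a x) := rfl

@[simp] theorem act_append (u v : List (Fin n → Fin n)) (x : Fin n) :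
    act (u ++ v) x = act v (act u x) := by
  simp [act, List.foldl_append]

theorem act_replicate (b : Fin n → Fin n) (i : ℕ) (x : Fin n) :
    act (List.replicate i b) x = b^[i] x := by
  induction i generalizing x with
  | zero => rfl
  | succ i ih => rw [List.replicate_succ, act_cons, ih, Function.iterate_succ_apply]

/-- the preimage of a set under a word -/
def pre (w : List (Fin n → Fin n)) (S : Finset (Fin n)) : Finset (Fin n) :=
  univ.filter fun x => act w x ∈ S

theorem mem_pre {w : List (Fin n → Fin n)} {S : Finset (Fin n)} {x : Fin n} :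
    x ∈ pre w S ↔ act w x ∈ S := by simp [pre]

theorem pre_append (u v : List (Fin n → Fin n)) (S : Finset (Fin n)) :
    pre (u ++ v) S = pre u (pre v S) := by
  ext x; simp [mem_pre]

/-- the letters of `w` belong to `Ω` -/
def Over (Ω : Finset (Fin n → Fin n)) (w : List (Fin n → Fin n)) : Prop := ∀ f ∈ w, f ∈ Ω

/-- `Ω` is synchronizing: some word over `Ω` sends all states to one state -/
def Sync (Ω : Finset (Fin n → Fin n)) : Prop :=
  ∃ w, Over Ω w ∧ ∃ q, ∀ x, act w x = q

theorem Over.append {Ω : Finset (Fin n → Fin n)} {u v : List (Fin n → Fin n)} (hu : Over Ω u)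
    (hv : Over Ω v) : Over Ω (u ++ v) := by
  intro f hf
  rcases List.mem_append.1 hf with h | h
  · exact hu f h
  · exact hv f h

theorem Over.replicate {Ω : Finset (Fin n → Fin n)} {b : Fin n → Fin n} (hb : b ∈ Ω) (i : ℕ) :
    Over Ω (List.replicate i b) := by
  intro f hf
  rw [List.eq_of_mem_replicate hf]
  exact hb

/-! ### the cyclic letter -/

section cyc
variable {b : Fin n → Fin n} (hcyc : ∀ x y : Fin n, ∃ i : ℕ, b^[i] x = y)
include hcyc

theorem surj : Function.Surjective b := by
  intro y
  obtain ⟨i, hi⟩ := hcyc (b y) y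
  refine ⟨b^[i] y, ?_⟩
  rw [← Function.iterate_succ_apply' b i y, Function.iterate_succ_apply]
  exact hi

theorem bij : Function.Bijective b := Finite.injective_iff_bijective.1
  (Finite.injective_iff_surjective.2 (surj hcyc))

theorem minPeriod (x : Fin n) : Function.minimalPeriod b x = n := by
  have hper : x ∈ Function.periodicPts b := by
    obtain ⟨i, hi⟩ := hcyc (b x) x
    exact ⟨i + 1, by omega, by
      show b^[i + 1] x = x
      rw [Function.iterate_succ_apply]; exact hi⟩
  have hpos : 0 < Function.minimalPeriod b x := Function.minimalPeriod_pos_of_mem_periodicPts hper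
  have hinj : Set.InjOn (fun i => b^[i] x) (Set.Iio (Function.minimalPeriod b x)) :=
    Function.iterate_injOn_Iio_minimalPeriod
  have h1 : ((range (Function.minimalPeriod b x)).image fun i => b^[i] x).card =
      Function.minimalPeriod b x := by
    rw [card_image_of_injOn, card_range]
    intro i hi j hj h
    exact hinj (by simpa using hi) (by simpa using hj) h
  have h2 : ((range (Function.minimalPeriod b x)).image fun i => b^[i] x) = univ := by
    rw [eq_univ_iff_forall]
    intro y
    obtain ⟨i, hi⟩ := hcyc x y
    rw [mem_image]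
    refine ⟨i % Function.minimalPeriod b x, mem_range.2 (Nat.mod_lt _ hpos), ?_⟩
    rw [Function.iterate_mod_minimalPeriod_eq]
    exact hi
  rw [h2, card_univ, Fintype.card_fin] at h1
  exact h1.symm

theorem iter_n (x : Fin n) : b^[n] x = x := by
  have h := Function.iterate_minimalPeriod (f := b) (x := x)
  rwa [minPeriod hcyc x] at h

theorem iter_inj (x : Fin n) {i j : ℕ} (hi : i < n) (hj : j < n) (h : b^[i] x = b^[j] x) : i = j := by
  have hinj : Set.InjOn (fun i => b^[i] x) (Set.Iio (Function.minimalPeriod b x)) :=
    Function.iterate_injOn_Iio_minimalPeriod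
  rw [minPeriod hcyc x] at hinj
  exact hinj hi hj h

/-- the number of rotations of `x` in `S` -/
theorem card_rot (x : Fin n) (S : Finset (Fin n)) :
    ((range n).filter fun i => b^[i] x ∈ S).card = S.card := by
  refine card_bij' (fun i _ => b^[i] x) (fun y _ => (Nat.find (hcyc x y)) % n) ?_ ?_ ?_ ?_
  · intro i hi
    exact (mem_filter.1 hi).2
  · intro y hy
    have hn : 0 < n := lt_of_le_of_lt (Nat.zero_le _) x.2
    have h := Nat.find_spec (hcyc x y)
    have h2 : b^[Nat.find (hcyc x y) % n] x = y := by
      have h3 := Function.iterate_mod_minimalPeriod_eq (f := b) (x := x) (n := Nat.find (hcyc x y))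
      rw [minPeriod hcyc x] at h3
      rw [h3, h]
    rw [mem_filter, mem_range]
    exact ⟨Nat.mod_lt _ hn, by rw [h2]; exact hy⟩
  · intro i hi
    have hn : 0 < n := lt_of_le_of_lt (Nat.zero_le _) x.2
    have hi' := mem_range.1 (mem_filter.1 hi).1
    have h := Nat.find_spec (hcyc x (b^[i] x))
    have h3 := Function.iterate_mod_minimalPeriod_eq (f := b) (x := x)
      (n := Nat.find (hcyc x (b^[i] x)))
    rw [minPeriod hcyc x, h] at h3
    exact iter_inj hcyc x (Nat.mod_lt _ hn) hi' h3
  · intro y hy
    have h := Nat.find_spec (hcyc x y)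
    have h3 := Function.iterate_mod_minimalPeriod_eq (f := b) (x := x) (n := Nat.find (hcyc x y))
    rw [minPeriod hcyc x] at h3
    show b^[Nat.find (hcyc x y) % n] x = y
    rw [h3, h]

/-- averaging over the rotations -/
theorem avg (T S : Finset (Fin n)) {j : ℕ} (h : j * n < T.card * S.card) :
    ∃ i < n, j + 1 ≤ (T.filter fun x => b^[i] x ∈ S).card := by
  by_contra hcon
  push Not at hcon
  have h1 : ∑ i ∈ range n, (T.filter fun x => b^[i] x ∈ S).card = T.card * S.card := by
    simp_rw [card_filter]
    rw [sum_comm]
    rw [← smul_eq_mul, ← sum_const]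
    refine sum_congr rfl fun x _ => ?_
    rw [← card_filter]
    exact card_rot hcyc x S
  have h2 : ∑ i ∈ range n, (T.filter fun x => b^[i] x ∈ S).card ≤ ∑ i ∈ range n, j :=
    sum_le_sum fun i hi => by have := hcon i (mem_range.1 hi); omega
  rw [h1, sum_const, card_range, smul_eq_mul] at h2
  rw [mul_comm n j] at h2
  omega

theorem card_pre_cons (w : List (Fin n → Fin n)) (S : Finset (Fin n)) :
    (pre (b :: w) S).card = (pre w S).card := by
  refine card_bij (fun x _ => b x) ?_ ?_ ?_
  · intro x hx
    rw [mem_pre] at hx ⊢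
    exact hx
  · intro x _ y _ h
    exact (bij hcyc).1 h
  · intro y hy
    obtain ⟨x, rfl⟩ := (bij hcyc).2 y
    refine ⟨x, ?_, rfl⟩
    rw [mem_pre] at hy ⊢
    exact hy

theorem card_pre_replicate (i : ℕ) (w : List (Fin n → Fin n)) (S : Finset (Fin n)) :
    (pre (List.replicate i b ++ w) S).card = (pre w S).card := by
  induction i with
  | zero => rfl
  | succ i ih => rw [List.replicate_succ, List.cons_append, card_pre_cons hcyc, ih]

end cyc

end

end Helper41.Circ
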