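import Pool.Agent.Helper41.Circ.Defs

/-!
# Circular automata: the extension lemma
-/

open Finset Polynomial

namespace Helper41.Circ

variable {n : ℕ}

/-- the words of length `i` over `Ω` -/
def words (Ω : Finset (Fin n → Fin n)) : ℕ → Finset (List (Fin n → Fin n))
  | 0 => {[]}
  | i + 1 => (Ω ×ˢ words Ω i).map ⟨fun p => p.1 :: p.2, fun p q h => by
      simp only [List.cons.injEq] at h
      exact Prod.ext h.1 h.2⟩

theorem mem_words {Ω : Finset (Fin n → Fin n)} {i : ℕ} {w : List (Fin n → Fin n)} :
    w ∈ words Ω i ↔ w.length = i ∧ Over Ω w := by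
  induction i generalizing w with
  | zero =>
    simp only [words, mem_singleton]
    constructor
    · rintro rfl
      exact ⟨rfl, fun f hf => by simp at hf⟩
    · rintro ⟨h, _⟩
      exact List.length_eq_zero_iff.1 h
  | succ i ih =>
    simp only [words, mem_map, mem_product, Function.Embedding.coeFn_mk, Prod.exists]
    constructor
    · rintro ⟨a, u, ⟨ha, hu⟩, rfl⟩
      obtain ⟨h1, h2⟩ := ih.1 hu
      refine ⟨by simp [h1], ?_⟩
      intro f hf
      rcases List.mem_cons.1 hf with h | h
      · rw [h]; exact ha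
      · exact h2 f h
    · rintro ⟨h1, h2⟩
      cases w with
      | nil => simp at h1
      | cons a u =>
        refine ⟨a, u, ⟨h2 a (by simp), ih.2 ⟨by simpa using h1, fun f hf => h2 f (by simp [hf])⟩⟩, rfl⟩

theorem sum_words_succ {R : Type*} [AddCommMonoid R] (Ω : Finset (Fin n → Fin n)) (i : ℕ)
    (g : List (Fin n → Fin n) → R) :
    ∑ w ∈ words Ω (i + 1), g w = ∑ a ∈ Ω, ∑ w ∈ words Ω i, g (a :: w) := by
  simp only [words, sum_map, Function.Embedding.coeFn_mk]
  rw [sum_product]

/-- the number of letters different from `b` -/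
def nb (b : Fin n → Fin n) : List (Fin n → Fin n) → ℕ
  | [] => 0
  | a :: w => (if a = b then 0 else 1) + nb b w

theorem nb_append (b : Fin n → Fin n) (u v : List (Fin n → Fin n)) :
    nb b (u ++ v) = nb b u + nb b v := by
  induction u with
  | nil => simp [nb]
  | cons a u ih => simp only [List.cons_append, nb, ih]; ring

theorem nb_replicate (b : Fin n → Fin n) (i : ℕ) : nb b (List.replicate i b) = 0 := by
  induction i with
  | zero => rfl
  | succ i ih => simp [List.replicate_succ, nb, ih]

/-- the centred indicator function -/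
def sv (S : Finset (Fin n)) (x : Fin n) : ℚ := (if x ∈ S then (n : ℚ) else 0) - S.card

/-- the sum of the values after the word `w` -/
def sg (S : Finset (Fin n)) (w : List (Fin n → Fin n)) : ℚ := ∑ x, sv S (act w x)

theorem sg_eq (S : Finset (Fin n)) (w : List (Fin n → Fin n)) :
    sg S w = n * ((pre w S).card - S.card) := by
  unfold sg sv
  rw [sum_sub_distrib, sum_const, card_univ, Fintype.card_fin]
  have : ∑ x : Fin n, (if act w x ∈ S then (n : ℚ) else 0) = n * (pre w S).card := by
    rw [← sum_filter, sum_const, nsmul_eq_mul]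
    unfold pre
    ring
  rw [this, nsmul_eq_mul]
  ring

theorem sg_nil (S : Finset (Fin n)) : sg S [] = 0 := by
  rw [sg_eq]
  have : pre [] S = S := by ext x; simp [mem_pre]
  rw [this]; ring

/-! ### the short word -/

section short
variable {Ω : Finset (Fin n → Fin n)} {b : Fin n → Fin n} {S : Finset (Fin n)}

/-- a shortest word with `sg ≠ 0` and the minimal number of letters different from `b` has length
less than `n` -/
theorem short_word {M N : ℕ} (hM : ∀ w, Over Ω w → nb b w < M → sg S w = 0)
    (hN : ∀ w, Over Ω w → nb b w = M → w.length < N → sg S w = 0)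
    {w : List (Fin n → Fin n)} (hw : Over Ω w) (hwM : nb b w = M) (hwN : w.length = N)
    (hsg : sg S w ≠ 0) : N + 1 ≤ n := by
  classical
  let K : Matrix (Fin (N + 1)) (Fin n) ℚ := fun i y =>
    ((univ.filter fun x => act (w.take i) x = y).card : ℚ)
  let V : Matrix (Fin n) (Fin (N + 1)) ℚ := fun y k => sv S (act (w.drop k) y)
  have hKV : ∀ i k : Fin (N + 1), (K * V) i k = sg S (w.take i ++ w.drop k) := by
    intro i k
    rw [Matrix.mul_apply]
    unfold sg
    simp only [K, V, act_append]
    have h1 : ∀ y : Fin n, ((univ.filter fun x => act (w.take i) x = y).card : ℚ) *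
        sv S (act (w.drop k) y) =
        ∑ x : Fin n, if act (w.take i) x = y then sv S (act (w.drop k) (act (w.take i) x)) else 0 := by
      intro y
      rw [← sum_filter, card_eq_sum_ones, Nat.cast_sum, sum_mul]
      refine sum_congr rfl fun x hx => ?_
      rw [(mem_filter.1 hx).2]
      simp
    rw [sum_congr rfl fun y _ => h1 y, sum_comm]
    refine sum_congr rfl fun x _ => ?_
    rw [sum_ite_eq]
    simp
  have hov : ∀ i k : ℕ, Over Ω (w.take i ++ w.drop k) := by
    intro i k f hf
    rcases List.mem_append.1 hf with h | h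
    · exact hw f (List.mem_of_mem_take h)
    · exact hw f (List.mem_of_mem_drop h)
  have htri : ∀ i k : Fin (N + 1), i < k → (K * V) i k = 0 := by
    intro i k hik
    have hik' : (i : ℕ) < k := hik
    have hk : (k : ℕ) ≤ N := by have := k.2; omega
    rw [hKV]
    have hlen : (w.take i ++ w.drop k).length < N := by
      rw [List.length_append, List.length_take, List.length_drop, hwN]
      omega
    have hnb : nb b (w.take i ++ w.drop k) ≤ M := by
      have h1 : w = w.take i ++ ((w.drop i).take (k - i) ++ w.drop k) := by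
        have h2 : w.drop k = (w.drop i).drop (k - i) := by
          rw [List.drop_drop]; congr 1; omega
        rw [h2, List.take_append_drop, List.take_append_drop]
      have h3 := congrArg (nb b) h1
      rw [nb_append, nb_append, hwM] at h3
      rw [nb_append]
      omega
    rcases Nat.lt_or_eq_of_le hnb with h | h
    · exact hM _ (hov _ _) h
    · exact hN _ (hov _ _) h hlen
  have hdiag : ∀ i : Fin (N + 1), (K * V) i i ≠ 0 := by
    intro i
    rw [hKV, List.take_append_drop]
    exact hsg
  have hdet : (K * V).det ≠ 0 := by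
    rw [Matrix.det_of_isLowerTriangular (K * V) (fun i j hij => htri i j hij)]
    exact prod_ne_zero_iff.2 fun i _ => hdiag i
  have hrank : (K * V).rank = N + 1 := by
    rw [Matrix.rank_of_isUnit _ ((Matrix.isUnit_iff_isUnit_det _).2 (isUnit_iff_ne_zero.2 hdet)),
      Fintype.card_fin]
  have h1 : (K * V).rank ≤ K.rank := Matrix.rank_mul_le_left K V
  have h2 : K.rank ≤ n := by
    have := Matrix.rank_le_width K
    simpa using this
  omega

end short

/-! ### the characteristic polynomial -/

/-- the matrix of `b` -/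
def Bm (b : Fin n → Fin n) : Matrix (Fin n) (Fin n) ℚ :=
  Matrix.of fun x y => if b x = y then 1 else 0

theorem Bm_pow (b : Fin n → Fin n) (i : ℕ) (x y : Fin n) :
    (Bm b ^ i) x y = if b^[i] x = y then 1 else 0 := by
  induction i generalizing x with
  | zero =>
    rw [pow_zero, Matrix.one_apply]
    rfl
  | succ i ih =>
    rw [pow_succ', Matrix.mul_apply]
    have h : ∀ z : Fin n, Bm b x z * (Bm b ^ i) z y =
        if b x = z then (if b^[i] z = y then (1 : ℚ) else 0) else 0 := by
      intro z
      rw [ih z]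
      simp only [Bm, Matrix.of_apply, ite_mul, one_mul, zero_mul]
    rw [sum_congr rfl fun z _ => h z, sum_ite_eq, if_pos (mem_univ _), Function.iterate_succ_apply]

theorem charpoly_Bm {b : Fin n → Fin n} (hcyc : ∀ x y : Fin n, ∃ i : ℕ, b^[i] x = y) (hn : 0 < n) :
    (Bm b).charpoly = X ^ n - 1 := by
  have x0 : Fin n := ⟨0, hn⟩
  have hB : Bm b ^ n = 1 := by
    ext x y
    rw [Bm_pow, iter_n hcyc, Matrix.one_apply]
  have hmonic : (X ^ n - 1 : ℚ[X]).Monic := by
    have := monic_X_pow_sub_C (1 : ℚ) hn.ne'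
    simpa using this
  have hdeg : (X ^ n - 1 : ℚ[X]).degree = n := by
    have := degree_X_pow_sub_C hn (1 : ℚ)
    simpa using this
  have hdeg2 : (Bm b).charpoly.degree = n := by
    rw [degree_eq_natDegree (Matrix.charpoly_monic _).ne_zero, Matrix.charpoly_natDegree_eq_dim,
      Fintype.card_fin]
  set q := (Bm b).charpoly - (X ^ n - 1) with hq
  have hqdeg : q.degree < n := by
    rw [← hdeg2]
    refine degree_sub_lt_left (by rw [hdeg, hdeg2]) (Matrix.charpoly_monic _).ne_zero ?_
    rw [(Matrix.charpoly_monic _).leadingCoeff, hmonic.leadingCoeff]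
  have hq0 : aeval (Bm b) q = 0 := by
    rw [hq, map_sub, Matrix.aeval_self_charpoly, map_sub, map_pow, aeval_X, map_one, hB, sub_self,
      sub_self]
  have hcoef : ∀ j < n, q.coeff j = 0 := by
    intro j hj
    have h1 : aeval (Bm b) q = ∑ i ∈ range n, q.coeff i • Bm b ^ i := by
      by_cases h0 : q = 0
      · rw [h0]; simp
      · refine aeval_eq_sum_range' ?_ _
        have := degree_eq_natDegree h0
        rw [this] at hqdeg
        exact_mod_cast hqdeg
    rw [hq0] at h1
    have h2 := congrFun (congrFun h1 x0) (b^[j] x0)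
    rw [Matrix.sum_apply] at h2
    simp only [Matrix.smul_apply, Bm_pow, smul_eq_mul, mul_ite, mul_one, mul_zero,
      Matrix.zero_apply] at h2
    rw [sum_eq_single j] at h2
    · rw [if_pos rfl] at h2
      exact h2.symm
    · intro i hi hij
      rw [if_neg]
      intro h
      exact hij (iter_inj hcyc x0 (mem_range.1 hi) hj h)
    · intro h
      exact absurd (mem_range.2 hj) h
  have hzero : q = 0 := by
    ext j
    rw [coeff_zero]
    rcases lt_or_ge j n with h | h
    · exact hcoef j h
    · exact coeff_eq_zero_of_degree_lt (hqdeg.trans_le (by exact_mod_cast h))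
  rw [hq, sub_eq_zero] at hzero
  exact hzero

/-! ### the generating polynomials -/

/-- the weight of a letter -/
noncomputable def wt (b a : Fin n → Fin n) : ℚ[X] := if a = b then 1 else X

/-- the polynomial matrix -/
noncomputable def Am (Ω : Finset (Fin n → Fin n)) (b : Fin n → Fin n) : Matrix (Fin n) (Fin n) ℚ[X] :=
  Matrix.of fun x y => ∑ a ∈ Ω, if a x = y then wt b a else 0

/-- the vector of the generating polynomials of the words of length `i` -/
noncomputable def Pv (Ω : Finset (Fin n → Fin n)) (b : Fin n → Fin n) (S : Finset (Fin n)) (i : ℕ)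
    (x : Fin n) : ℚ[X] := ∑ w ∈ words Ω i, C (sv S (act w x)) * X ^ (nb b w)

theorem Pv_succ (Ω : Finset (Fin n → Fin n)) (b : Fin n → Fin n) (S : Finset (Fin n)) (i : ℕ) :
    Pv Ω b S (i + 1) = (Am Ω b).mulVec (Pv Ω b S i) := by
  funext x
  unfold Pv
  rw [sum_words_succ]
  simp only [Matrix.mulVec, dotProduct, Am, Matrix.of_apply, sum_mul]
  conv_rhs => rw [sum_comm]
  refine sum_congr rfl fun a ha => ?_
  simp only [ite_mul, zero_mul]
  rw [sum_ite_eq]
  simp only [mem_univ, if_true]
  rw [mul_sum]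
  refine sum_congr rfl fun w hw => ?_
  simp only [act_cons, nb, wt]
  split_ifs with h
  · ring
  · ring

theorem Pv_eq (Ω : Finset (Fin n → Fin n)) (b : Fin n → Fin n) (S : Finset (Fin n)) (i : ℕ) :
    Pv Ω b S i = ((Am Ω b) ^ i).mulVec (Pv Ω b S 0) := by
  induction i with
  | zero => rw [pow_zero, Matrix.one_mulVec]
  | succ i ih => rw [Pv_succ, ih, pow_succ', Matrix.mulVec_mulVec]

/-- the sum of the entries -/
theorem sum_Pv (Ω : Finset (Fin n → Fin n)) (b : Fin n → Fin n) (S : Finset (Fin n)) (i : ℕ) :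
    ∑ x, Pv Ω b S i x = ∑ w ∈ words Ω i, C (sg S w) * X ^ (nb b w) := by
  unfold Pv sg
  rw [sum_comm]
  refine sum_congr rfl fun w _ => ?_
  rw [map_sum, sum_mul]

theorem coeff_sum_Pv (Ω : Finset (Fin n → Fin n)) (b : Fin n → Fin n) (S : Finset (Fin n)) (i k : ℕ) :
    (∑ x, Pv Ω b S i x).coeff k = ∑ w ∈ (words Ω i).filter (fun w => nb b w = k), sg S w := by
  rw [sum_Pv, finsetSum_coeff, sum_filter]
  refine sum_congr rfl fun w _ => ?_
  rw [coeff_C_mul, coeff_X_pow]
  simp only [mul_ite, mul_one, mul_zero]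
  by_cases h : nb b w = k
  · rw [if_pos h, if_pos h.symm]
  · rw [if_neg h, if_neg (Ne.symm h)]

theorem Am_zero {Ω : Finset (Fin n → Fin n)} {b : Fin n → Fin n} (hb : b ∈ Ω) :
    (Am Ω b).map (evalRingHom (0 : ℚ)) = Bm b := by
  ext x y
  rw [Matrix.map_apply]
  simp only [Am, Bm, Matrix.of_apply, map_sum]
  rw [sum_eq_single b]
  · split_ifs
    · simp [wt]
    · simp
  · intro a _ hab
    split_ifs
    · simp [wt, hab]
    · simp
  · intro h
    exact absurd hb h

theorem charpoly_coeff_zero {Ω : Finset (Fin n → Fin n)} {b : Fin n → Fin n} (hb : b ∈ Ω)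
    (hcyc : ∀ x y : Fin n, ∃ i : ℕ, b^[i] x = y) (hn : 0 < n) (k : ℕ) :
    ((Am Ω b).charpoly.coeff k).coeff 0 = (X ^ n - 1 : ℚ[X]).coeff k := by
  rw [← charpoly_Bm hcyc hn, ← Am_zero hb, Matrix.charpoly_map, coeff_map, coe_evalRingHom,
    coeff_zero_eq_eval_zero]

/-- the key identity -/
theorem key {Ω : Finset (Fin n → Fin n)} {b : Fin n → Fin n} (hb : b ∈ Ω)
    (hcyc : ∀ x y : Fin n, ∃ i : ℕ, b^[i] x = y) (hn : 0 < n) (S : Finset (Fin n)) {M : ℕ}
    (hM : ∀ w, Over Ω w → nb b w < M → sg S w = 0) :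
    ∑ w ∈ (words Ω n).filter (fun w => nb b w = M), sg S w = 0 := by
  have h1 : ∑ k ∈ range (n + 1), (Am Ω b).charpoly.coeff k • (Am Ω b) ^ k = 0 := by
    have h2 := aeval_eq_sum_range (p := (Am Ω b).charpoly) (Am Ω b)
    rw [Matrix.aeval_self_charpoly, Matrix.charpoly_natDegree_eq_dim, Fintype.card_fin] at h2
    exact h2.symm
  have h3 : ∑ k ∈ range (n + 1), (Am Ω b).charpoly.coeff k * ∑ x, Pv Ω b S k x = 0 := by
    have h4 := congrArg (fun A => ∑ x, (Matrix.mulVec A (Pv Ω b S 0)) x) h1
    simp only [Matrix.sum_mulVec, Matrix.smul_mulVec, Matrix.zero_mulVec, Pi.zero_apply,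
      sum_const_zero] at h4
    rw [← h4]
    simp only [← Pv_eq]
    rw [sum_congr rfl fun x _ => Finset.sum_apply x _ _, sum_comm]
    refine sum_congr rfl fun k _ => ?_
    simp only [Pi.smul_apply, smul_eq_mul]
    rw [mul_sum]
  have hlow : ∀ i k, k < M → (∑ x, Pv Ω b S i x).coeff k = 0 := by
    intro i k hk
    rw [coeff_sum_Pv]
    refine sum_eq_zero fun w hw => ?_
    obtain ⟨h5, h6⟩ := mem_filter.1 hw
    exact hM w (mem_words.1 h5).2 (by omega)
  have h7 := congrArg (fun p => p.coeff M) h3
  simp only [finsetSum_coeff, coeff_zero] at h7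
  have h8 : ∀ k ∈ range (n + 1), ((Am Ω b).charpoly.coeff k * ∑ x, Pv Ω b S k x).coeff M =
      (X ^ n - 1 : ℚ[X]).coeff k * (∑ x, Pv Ω b S k x).coeff M := by
    intro k _
    rw [coeff_mul, sum_eq_single (0, M)]
    · rw [charpoly_coeff_zero hb hcyc hn]
    · intro p hp hne
      have h9 := HasAntidiagonal.mem_antidiagonal.1 hp
      have h10 : p.2 < M := by
        rcases Nat.lt_or_eq_of_le (by omega : p.2 ≤ M) with h | h
        · exact h
        · exact absurd (Prod.ext (by simp; omega) h) hne
      rw [hlow k p.2 h10, mul_zero]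
    · intro h
      exact absurd (HasAntidiagonal.mem_antidiagonal.2 (by simp)) h
  rw [sum_congr rfl h8] at h7
  have h11 : ∀ k, (X ^ n - 1 : ℚ[X]).coeff k = (if k = n then 1 else 0) - (if k = 0 then 1 else 0) := by
    intro k
    rw [coeff_sub, coeff_X_pow, coeff_one]
  simp only [h11, sub_mul, ite_mul, one_mul, zero_mul, sum_sub_distrib, sum_ite_eq', mem_range] at h7
  rw [if_pos (by omega), if_pos (by omega), coeff_sum_Pv, coeff_sum_Pv] at h7
  have h12 : ∑ w ∈ (words Ω 0).filter (fun w => nb b w = M), sg S w = 0 := by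
    refine sum_eq_zero fun w hw => ?_
    have h13 := (mem_filter.1 hw).1
    simp only [words, mem_singleton] at h13
    rw [h13, sg_nil]
  rw [h12, sub_zero] at h7
  exact h7

/-- **Extension lemma** (Dubuc) for circular automata. -/
theorem extend {Ω : Finset (Fin n → Fin n)} {b : Fin n → Fin n} (hb : b ∈ Ω)
    (hcyc : ∀ x y : Fin n, ∃ i : ℕ, b^[i] x = y) {r : List (Fin n → Fin n)} (hr : Over Ω r)
    {q : Fin n} (hrq : ∀ x, act r x = q) {S : Finset (Fin n)} (hS0 : 0 < S.card) (hSn : S.card < n) :
    ∃ w, Over Ω w ∧ w.length ≤ n ∧ S.card < (pre w S).card := by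
  classical
  have hn : 0 < n := lt_of_le_of_lt (Nat.zero_le _) hSn
  have hn' : (0 : ℚ) < n := by exact_mod_cast hn
  have hex : ∃ M, ∃ w, Over Ω w ∧ nb b w = M ∧ sg S w ≠ 0 := by
    refine ⟨_, r, hr, rfl, ?_⟩
    rw [sg_eq]
    refine mul_ne_zero hn'.ne' ?_
    rw [sub_ne_zero]
    intro h
    have h' : (pre r S).card = S.card := by exact_mod_cast h
    by_cases hq : q ∈ S
    · have : pre r S = univ := by
        ext x; simp [mem_pre, hrq, hq]
      rw [this, card_univ, Fintype.card_fin] at h'
      omega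
    · have : pre r S = ∅ := by
        ext x; simp [mem_pre, hrq, hq]
      rw [this, card_empty] at h'
      omega
  set M := Nat.find hex with hMdef
  have hMspec := Nat.find_spec hex
  rw [← hMdef] at hMspec
  have hM : ∀ w, Over Ω w → nb b w < M → sg S w = 0 := by
    intro w hw hlt
    by_contra hne
    exact Nat.find_min hex hlt ⟨w, hw, rfl, hne⟩
  have hexN : ∃ N, ∃ w, Over Ω w ∧ nb b w = M ∧ w.length = N ∧ sg S w ≠ 0 := by
    obtain ⟨w, h1, h2, h3⟩ := hMspec
    exact ⟨_, w, h1, h2, rfl, h3⟩
  set N := Nat.find hexN with hNdef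
  have hNspec := Nat.find_spec hexN
  rw [← hNdef] at hNspec
  have hN : ∀ w, Over Ω w → nb b w = M → w.length < N → sg S w = 0 := by
    intro w hw hwM hlt
    by_contra hne
    exact Nat.find_min hexN hlt ⟨w, hw, hwM, rfl, hne⟩
  obtain ⟨w, h1, h2, h3, h4⟩ := hNspec
  have h5 := short_word hM hN h1 h2 h3 h4
  have hsum := key hb hcyc hn S hM
  set w' := List.replicate (n - N) b ++ w with hw'
  have h6 : w' ∈ (words Ω n).filter (fun w => nb b w = M) := by
    rw [mem_filter, mem_words]
    refine ⟨⟨?_, (Over.replicate hb _).append h1⟩, ?_⟩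
    · rw [hw', List.length_append, List.length_replicate, h3]; omega
    · rw [hw', nb_append, nb_replicate, zero_add, h2]
  have h7 : sg S w' ≠ 0 := by
    rw [sg_eq, hw', card_pre_replicate hcyc, ← sg_eq]
    exact h4
  obtain ⟨u, hu1, hu2⟩ := exists_pos_of_sum_zero_of_exists_nonzero _ hsum ⟨w', h6, h7⟩
  obtain ⟨hu3, _⟩ := mem_filter.1 hu1
  obtain ⟨hu4, hu5⟩ := mem_words.1 hu3
  refine ⟨u, hu5, hu4.le, ?_⟩
  rw [sg_eq] at hu2
  have h8 : (0 : ℚ) < (pre u S).card - S.card := by
    by_contra hcon
    push Not at hcon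
    exact absurd hu2 (not_lt.2 (mul_nonpos_of_nonneg_of_nonpos hn'.le hcon))
  have h9 : (S.card : ℚ) < (pre u S).card := by linarith
  exact_mod_cast h9

end Helper41.Circ
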