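import Pool.Agent.Helper41.Circ.Ext

/-!
# Circular automata: synchronization of `k`-sets
-/

open Finset

namespace Helper41.Circ

variable {n : ℕ}

/-- words with large fibres -/
theorem fibres {Ω : Finset (Fin n → Fin n)} {b : Fin n → Fin n} (hb : b ∈ Ω)
    (hcyc : ∀ x y : Fin n, ∃ i : ℕ, b^[i] x = y) {r : List (Fin n → Fin n)} (hr : Over Ω r)
    {q : Fin n} (hrq : ∀ x, act r x = q) (m : ℕ) (hm2 : 2 ≤ m) (hmn : m ≤ n) :
    ∃ v, Over Ω v ∧ v.length ≤ (m - 2) * n + 1 ∧ ∃ p, m ≤ (pre v {p}).card := by
  classical
  induction m, hm2 using Nat.le_induction with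
  | base =>
    -- a non-injective letter
    have hex : ∃ g ∈ Ω, ¬ Function.Injective g := by
      by_contra hcon
      push Not at hcon
      have h1 : ∀ w, Over Ω w → Function.Injective (act w) := by
        intro w
        induction w with
        | nil => intro _ x y h; exact h
        | cons a w ih =>
          intro hw x y h
          rw [act_cons, act_cons] at h
          exact hcon a (hw a (by simp)) (ih (fun f hf => hw f (by simp [hf])) h)
      have h2 := h1 r hr
      have h3 : (⟨0, by omega⟩ : Fin n) = ⟨1, by omega⟩ := h2 (by rw [hrq, hrq])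
      simp at h3
    obtain ⟨g, hg, hinj⟩ := hex
    rw [Function.Injective] at hinj
    push Not at hinj
    obtain ⟨x, y, hxy, hne⟩ := hinj
    refine ⟨[g], ?_, by simp, g x, ?_⟩
    · intro f hf
      rw [List.mem_singleton] at hf
      rw [hf]; exact hg
    · have h1 : ({x, y} : Finset (Fin n)) ⊆ pre [g] {g x} := by
        intro z hz
        rw [mem_pre, mem_singleton]
        rcases mem_insert.1 hz with h | h
        · rw [h]; rfl
        · rw [mem_singleton.1 h]
          show g y = g x
          exact hxy.symm
      have h2 := card_le_card h1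
      rwa [card_pair hne] at h2
  | succ m hm ih =>
    obtain ⟨v, hv, hlen, p, hp⟩ := ih (by omega)
    rcases Nat.lt_or_ge m (pre v {p}).card with h | h
    · refine ⟨v, hv, hlen.trans ?_, p, h⟩
      have : m - 2 ≤ m + 1 - 2 := by omega
      have := Nat.mul_le_mul_right n this
      omega
    · have hcard : (pre v {p}).card = m := by omega
      obtain ⟨u, hu, hulen, hu2⟩ := extend hb hcyc hr hrq (S := pre v {p}) (by omega) (by omega)
      refine ⟨u ++ v, hu.append hv, ?_, p, ?_⟩
      · rw [List.length_append]
        have : m + 1 - 2 = (m - 2) + 1 := by omega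
        rw [this, Nat.add_mul, one_mul]
        omega
      · rw [pre_append]; omega

/-- main theorem -/
theorem main {Ω : Finset (Fin n → Fin n)} {b : Fin n → Fin n} (hb : b ∈ Ω)
    (hcyc : ∀ x y : Fin n, ∃ i : ℕ, b^[i] x = y) {r : List (Fin n → Fin n)} (hr : Over Ω r)
    {q : Fin n} (hrq : ∀ x, act r x = q) (T : Finset (Fin n)) (j : ℕ) (hj : j < T.card) :
    ∃ w, Over Ω w ∧ w.length ≤ (j * n / T.card) * n ∧
      ∃ p, j + 1 ≤ (T.filter fun x => act w x = p).card := by
  classical
  have hTn : T.card ≤ n := by
    have := card_le_univ T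
    rwa [Fintype.card_fin] at this
  have hT0 : 0 < T.card := by omega
  rcases Nat.eq_zero_or_pos j with rfl | hj0
  · obtain ⟨x, hx⟩ := card_pos.1 hT0
    refine ⟨[], fun f hf => by simp at hf, by simp, x, ?_⟩
    have : ({x} : Finset (Fin n)) ⊆ T.filter fun y => act [] y = x := by
      intro y hy
      rw [mem_singleton.1 hy, mem_filter]
      exact ⟨hx, rfl⟩
    have h2 := card_le_card this
    rwa [card_singleton] at h2
  · set d := j * n / T.card with hd
    have hd1 : 1 ≤ d := by
      rw [hd, Nat.one_le_div_iff hT0]
      calc T.card ≤ n := hTn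
        _ = 1 * n := (one_mul n).symm
        _ ≤ j * n := Nat.mul_le_mul_right n hj0
    have hdn : d < n := by
      rw [hd, Nat.div_lt_iff_lt_mul hT0, mul_comm n]
      exact Nat.mul_lt_mul_of_pos_right hj (by omega)
    obtain ⟨v, hv, hlen, p, hp⟩ := fibres hb hcyc hr hrq (d + 1) (by omega) (by omega)
    have h1 : j * n < T.card * (pre v {p}).card := by
      calc j * n < T.card * (d + 1) := by
            rw [hd, mul_comm T.card]
            exact Nat.lt_mul_of_div_lt (Nat.lt_succ_self _) hT0
        _ ≤ T.card * (pre v {p}).card := Nat.mul_le_mul_left _ hp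
    obtain ⟨i, hi, h2⟩ := avg hcyc T (pre v {p}) h1
    refine ⟨List.replicate i b ++ v, (Over.replicate hb i).append hv, ?_, p, ?_⟩
    · rw [List.length_append, List.length_replicate]
      have h3 : d + 1 - 2 = d - 1 := by omega
      rw [h3] at hlen
      have h4 : d * n = (d - 1) * n + n := by
        obtain ⟨e, he⟩ : ∃ e, d = e + 1 := ⟨d - 1, by omega⟩
        rw [he, Nat.add_sub_cancel, Nat.add_mul, one_mul]
      omega
    · have h5 : (T.filter fun x => b^[i] x ∈ pre v {p}) =
          T.filter fun x => act (List.replicate i b ++ v) x = p := by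
        ext x
        rw [mem_filter, mem_filter, mem_pre, mem_singleton, act_append, act_replicate]
      rw [← h5]
      exact h2

end Helper41.Circ
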