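import Pool.Agent.Helper41.Circ.Trans

/-!
# One-cluster automata
-/

open Finset

namespace Helper41.Circ

variable {n : ℕ}

section
variable {b : Fin n → Fin n} {C : Finset (Fin n)} (h1 : ∀ x ∈ C, b x ∈ C)
  (h2 : ∀ x ∈ C, ∀ y ∈ C, ∃ i : ℕ, b^[i] x = y) (h3 : ∀ x, ∃ i : ℕ, b^[i] x ∈ C)

include h1 in
theorem stay (x : Fin n) (hx : x ∈ C) (i : ℕ) : b^[i] x ∈ C := by
  induction i with
  | zero => exact hx
  | succ i ih => rw [Function.iterate_succ_apply']; exact h1 _ ih

include h1 h3 in
theorem enter (x : Fin n) : b^[n - C.card] x ∈ C := by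
  classical
  have hspec := Nat.find_spec (h3 x)
  set i := Nat.find (h3 x) with hi
  have hmin : ∀ k < i, b^[k] x ∉ C := fun k hk => Nat.find_min (h3 x) hk
  have hinj : Set.InjOn (fun k => b^[k] x) (range i : Set ℕ) := by
    have key : ∀ s t, s < t → t < i → b^[s] x ≠ b^[t] x := by
      intro s t hst hti h
      have h4 : b^[i - t + s] x ∈ C := by
        rw [Function.iterate_add_apply, h, ← Function.iterate_add_apply]
        have : i - t + t = i := by omega
        rw [this]; exact hspec
      exact hmin _ (by omega) h4
    intro s hs t ht h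
    have hs' : s < i := by simpa using hs
    have ht' : t < i := by simpa using ht
    rcases lt_trichotomy s t with h5 | h5 | h5
    · exact absurd h (key s t h5 ht')
    · exact h5
    · exact absurd h.symm (key t s h5 hs')
  have hcard : ((range i).image fun k => b^[k] x).card = i := by
    rw [card_image_of_injOn hinj, card_range]
  have hsub : ((range i).image fun k => b^[k] x) ⊆ univ \ C := by
    intro y hy
    obtain ⟨k, hk, rfl⟩ := mem_image.1 hy
    rw [mem_sdiff]
    exact ⟨mem_univ _, hmin k (mem_range.1 hk)⟩
  have hle := card_le_card hsub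
  rw [hcard, card_sdiff_of_subset (subset_univ C), card_univ, Fintype.card_fin] at hle
  have h6 : n - C.card = (n - C.card - i) + i := by omega
  rw [h6, Function.iterate_add_apply]
  exact stay h1 _ hspec _

include h1 h2 in
theorem cyc_indep (z : Fin n) (hz : z ∈ C) :
    Function.Injective (fun i : Fin C.card => b^[(i : ℕ)] z) ∧
      univ.image (fun i : Fin C.card => b^[(i : ℕ)] z) = C := by
  classical
  have hper : z ∈ Function.periodicPts b := by
    obtain ⟨i, hi⟩ := h2 (b z) (h1 z hz) z hz
    exact ⟨i + 1, by omega, by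
      show b^[i + 1] z = z
      rw [Function.iterate_succ_apply]; exact hi⟩
  have hpos : 0 < Function.minimalPeriod b z := Function.minimalPeriod_pos_of_mem_periodicPts hper
  have hinj : Set.InjOn (fun i => b^[i] z) (Set.Iio (Function.minimalPeriod b z)) :=
    Function.iterate_injOn_Iio_minimalPeriod
  have e1 : ((range (Function.minimalPeriod b z)).image fun i => b^[i] z).card =
      Function.minimalPeriod b z := by
    rw [card_image_of_injOn, card_range]
    intro i hi j hj h
    exact hinj (by simpa using hi) (by simpa using hj) h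
  have e2 : ((range (Function.minimalPeriod b z)).image fun i => b^[i] z) = C := by
    ext y
    rw [mem_image]
    constructor
    · rintro ⟨i, _, rfl⟩
      exact stay h1 z hz i
    · intro hy
      obtain ⟨i, hi⟩ := h2 z hz y hy
      refine ⟨i % Function.minimalPeriod b z, mem_range.2 (Nat.mod_lt _ hpos), ?_⟩
      rw [Function.iterate_mod_minimalPeriod_eq]
      exact hi
  rw [e2] at e1
  constructor
  · intro i j h
    have hi : (i : ℕ) < Function.minimalPeriod b z := by rw [← e1]; exact i.2
    have hj : (j : ℕ) < Function.minimalPeriod b z := by rw [← e1]; exact j.2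
    exact Fin.ext (hinj hi hj h)
  · ext y
    rw [mem_image]
    constructor
    · rintro ⟨i, _, rfl⟩
      exact stay h1 z hz _
    · intro hy
      rw [← e2, mem_image] at hy
      obtain ⟨i, hi, hy⟩ := hy
      exact ⟨⟨i, e1.symm ▸ mem_range.1 hi⟩, mem_univ _, hy⟩

include h1 h2 h3 in
theorem indep_one : Indep (fun i : Fin C.card => List.replicate (n - C.card + i) b) C := by
  intro x
  have hz := enter h1 h3 x
  have h := cyc_indep h1 h2 _ hz
  have e : (fun i : Fin C.card => act (List.replicate (n - C.card + i) b) x) =
      fun i : Fin C.card => b^[(i : ℕ)] (b^[n - C.card] x) := by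
    funext i
    rw [act_replicate, add_comm, Function.iterate_add_apply]
  rw [e]
  exact h

include h1 h2 h3 in
/-- one-cluster automata -/
theorem main3 {Ω : Finset (Fin n → Fin n)} (hb : b ∈ Ω) {t : List (Fin n → Fin n)} (ht : Over Ω t)
    {q : Fin n} (htq : ∀ x, act t x = q) (T : Finset (Fin n)) (j : ℕ) (hj : j < T.card) :
    ∃ w, Over Ω w ∧ w.length ≤ (j * C.card / T.card) * (2 * (n - 1)) + (n - 1) ∧
      ∃ p, j + 1 ≤ (T.filter fun x => act w x = p).card := by
  have hC0 : 0 < C.card := by
    obtain ⟨i, hi⟩ := h3 q
    exact card_pos.2 ⟨_, hi⟩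
  have hCn : C.card ≤ n := by
    have := card_le_univ C
    rwa [Fintype.card_fin] at this
  have h := main2 (Ω := Ω) (L := n - 1) (indep_one h1 h2 h3) (fun i => ⟨Over.replicate hb _, by
    rw [List.length_replicate]
    have := i.2
    omega⟩) hC0 ht htq T j hj
  rw [two_mul]
  exact h

end

end Helper41.Circ
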